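import Pool.Agent.Lib.HC.Z.Hom

/-!
# HC: the statements `S_P0` (permutations) and `S_P2` (removal of a pair) (helper96)
-/

set_option autoImplicit false

noncomputable section

namespace HC

theorem Ty.div_one {X : CMF} (Φ : Ty X) : Φ.div 1 = Φ := by
  apply Ty.ext
  ext g
  show g * 1 ∈ Φ.S ↔ g ∈ Φ.S
  rw [mul_one]

/-- A homomorphism given by a map of indices. -/
theorem Hom_map {X : CMF} {m : ℕ} {ι ι' : Type} [Fintype ι] [Fintype ι'] {f : ι → Ty X} {f' : ι' → Ty X}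
    {T T' : AV} (C : Crd f T) (C' : Crd f' T') (i : Fin m → ι) (i' : Fin m → ι')
    (hi : Function.Injective i) (hf : ∀ a, f' (i' a) = f (i a)) (hW : S_Wdg)
    (h : Alg T m (wdg fun j => C.x (i j, 1))) : Alg T' m (wdg fun j => C'.x (i' j, 1)) := by
  classical
  obtain ⟨φ, h1, -, h3⟩ := tHom X ι ι' (Fin m) f f' T T' C C' i i' (fun _ => 1) (fun _ => 1)
    (fun _ => isIntegral_one) (fun a g => by rw [mul_one, hf])
  have h4 := Alg.push φ h1 h
  rw [hW.2.1] at h4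
  have h5 : (fun j => C.x (i j, 1) ∘ₗ pull φ) = fun j => C'.x (i' j, 1) := by
    funext j
    rw [h3, Finset.sum_eq_single j]
    · rw [if_pos rfl, map_one, map_one, map_one, one_smul, inv_one, mul_one]
    · intro b _ hb
      rw [if_neg (fun he => hb (hi he))]
    · intro hj
      exact absurd (Finset.mem_univ j) hj
  rw [h5] at h4
  exact h4

theorem tP0 (hC : S_C) (hW : S_Wdg) : S_P0 := by
  intro X m g σ hg T C
  obtain ⟨T1, ⟨C1⟩⟩ := hC X (Fin m) g
  have h1 := Hom_map C1 C (fun j => j) (fun j => σ⁻¹ j) (fun _ _ h => h)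
    (fun a => by
      show g (σ (σ⁻¹ a)) = g a
      rw [← Equiv.Perm.mul_apply, mul_inv_cancel, Equiv.Perm.one_apply]) hW (hg T1 C1)
  have h2 := hW.2.2.2.2 T m (fun j => C.x (j, 1)) σ⁻¹
  have h3 : ((fun j => C.x (j, 1)) ∘ (σ⁻¹ : Equiv.Perm (Fin m)) : Fin m → _) =
      fun j => C.x (σ⁻¹ j, 1) := rfl
  rw [h3] at h2
  rw [h2] at h1
  rcases Int.units_eq_one_or (Equiv.Perm.sign σ⁻¹) with h4 | h4
  · rw [h4, one_smul] at h1
    exact h1
  · rw [h4] at h1
    have h5 := Alg.smul (-1) h1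
    have h6 : (-1 : ℂ) • ((-1 : ℤˣ) • wdg fun j => C.x (j, 1)) = wdg fun j => C.x (j, 1) := by
      rw [Units.smul_def, Units.val_neg, Units.val_one, neg_smul, one_smul, neg_smul, one_smul, neg_neg]
    rw [h6] at h5
    exact h5

theorem tP2 (hC : S_C) (hW : S_Wdg) (hG : S_G) : S_P2 := by
  classical
  intro X m g Φ hg T C
  obtain ⟨T1, ⟨C1⟩⟩ := hC X (Fin (m + 1 + 1))
    (Fin.cons Φ (Fin.cons Φ.conj g : Fin (m + 1) → Ty X) : Fin (m + 1 + 1) → Ty X)
  have h0 := hg T1 C1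
  have h1 : (fun j : Fin (m + 1 + 1) => C1.x (j, 1)) =
      Fin.cons (C1.x (0, 1)) (Fin.cons (C1.x ((0 : Fin (m + 1)).succ, 1))
        (fun j : Fin m => C1.x (j.succ.succ, 1)) : Fin (m + 1) → _) := by
    funext j
    refine Fin.cases ?_ (fun j => ?_) j
    · rw [Fin.cons_zero]
    · rw [Fin.cons_succ]
      refine Fin.cases ?_ (fun j => ?_) j
      · rw [Fin.cons_zero]
      · rw [Fin.cons_succ]
  have h2 := hG X (Fin (m + 1 + 1)) _ T1 C1 (0, 1) ((0 : Fin (m + 1)).succ, 1)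
    (by
      rw [Ty.div_one, Ty.div_one, Fin.cons_zero, Fin.cons_succ, Fin.cons_zero]) m _ h0
  rw [h1, hW.2.2.2.1 T1 (m + 1) (C1.x (0, 1)) _ (C1.z (0, 1)) (by rw [C1.x_z, if_pos ⟨rfl, rfl⟩]) (by
      intro j
      refine Fin.cases ?_ (fun j => ?_) j
      · rw [Fin.cons_zero, C1.x_z, if_neg]
        rintro ⟨h, -⟩
        exact Fin.succ_ne_zero _ h.symm
      · rw [Fin.cons_succ, C1.x_z, if_neg]
        rintro ⟨h, -⟩
        exact Fin.succ_ne_zero _ h.symm),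
    hW.2.2.2.1 T1 m (C1.x ((0 : Fin (m + 1)).succ, 1)) _ (C1.z ((0 : Fin (m + 1)).succ, 1))
      (by rw [C1.x_z, if_pos ⟨rfl, rfl⟩]) (by
      intro j
      rw [C1.x_z, if_neg]
      rintro ⟨h, -⟩
      exact Fin.succ_ne_zero j (Fin.succ_injective _ h).symm)] at h2
  exact Hom_map C1 C (fun j => j.succ.succ) (fun j => j)
    (fun a b h => Fin.succ_injective _ (Fin.succ_injective _ h))
    (fun a => by rw [Fin.cons_succ, Fin.cons_succ]) hW h2

end HC
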