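import Pool.Agent.Lib.HC.Z.Crd

/-!
# HC, part Z: the functions `z_s` are a basis (helper96)
-/

set_option autoImplicit false

open scoped ComplexConjugate

noncomputable section

namespace HC

variable {X : CMF}

instance finG (X : CMF) : Finite X.G := inferInstance

instance fintypeTy (Φ : Ty X) : Fintype Φ.S := Fintype.ofFinite _

/-- A sum over `G` as a sum over a CM type. -/
theorem Z_half (Φ : Ty X) (F : X.G → ℂ) :
    ∑ g : Φ.S, (F g.1 + F (X.c * g.1)) = ∑ g : X.G, F g := by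
  classical
  have h1 : ∀ F' : X.G → ℂ, ∑ g : Φ.S, F' g.1 = ∑ g ∈ Finset.univ.filter (fun g => g ∈ Φ.S), F' g := fun F' =>
    (Finset.sum_subtype (Finset.univ.filter (fun g => g ∈ Φ.S)) (p := fun g => g ∈ Φ.S) (by simp) F').symm
  rw [Finset.sum_add_distrib, h1 F, h1 (fun g => F (X.c * g)),
    ← Finset.sum_filter_add_sum_filter_not Finset.univ (fun g => g ∈ Φ.S) F]
  congr 1
  refine Finset.sum_nbij' (fun g => X.c * g) (fun g => X.c * g) ?_ ?_ ?_ ?_ ?_
  · intro g hg
    rw [Finset.mem_filter] at hg ⊢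
    exact ⟨Finset.mem_univ _, (Φ.cm g).1 hg.2⟩
  · intro g hg
    rw [Finset.mem_filter] at hg ⊢
    exact ⟨Finset.mem_univ _, Ty.cmem hg.2⟩
  · intro g _
    exact Z_ccg g
  · intro g _
    exact Z_ccg g
  · intro g _
    rfl

theorem Z_real {V : Type} [AddCommGroup V] [Module ℂ V] (a : V →ₗ[ℝ] ℂ) (l : ℂ) (v : V) :
    a (l • v) = (l.re : ℂ) * a v + (l.im : ℂ) * a (Complex.I • v) := by
  have h1 : l • v = (l.re : ℝ) • v + (l.im : ℝ) • (Complex.I • v) := by
    conv_lhs => rw [← Complex.re_add_im l]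
    rw [add_smul, mul_smul]
    rfl
  rw [h1, map_add, map_smul, map_smul, Complex.real_smul, Complex.real_smul]

variable {ι : Type} [Fintype ι] {f : ι → Ty X} {T : AV}

open Classical in
/-- The expansion of `v` in the basis vectors. -/
theorem Crd.v_sum (C : Crd f T) (v : T.V) :
    v = ∑ i, ∑ g : (f i).S, C.ψ v ⟨i, g⟩ • C.e i g := by
  have h1 : C.ψ v = ∑ s : (i : ι) × (f i).S, C.ψ v s • (Pi.single s (1 : ℂ) : PV f) := by
    funext t
    rw [Finset.sum_apply, Finset.sum_eq_single t]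
    · rw [Pi.smul_apply, Pi.single_eq_same, smul_eq_mul, mul_one]
    · intro s _ hs
      rw [Pi.smul_apply, Pi.single_eq_of_ne (Ne.symm hs), smul_zero]
    · intro h
      exact absurd (Finset.mem_univ t) h
  have h2 : v = C.ψ.symm (C.ψ v) := (LinearEquiv.symm_apply_apply _ _).symm
  rw [h1, map_sum, Fintype.sum_sigma] at h2
  conv_lhs => rw [h2]
  refine Finset.sum_congr rfl fun i _ => Finset.sum_congr rfl fun g _ => ?_
  rw [map_smul]
  rfl

omit [Fintype ι] in
theorem Crd.pair (C : Crd f T) (a : T.V →ₗ[ℝ] ℂ) (v : T.V) (i : ι) (g : (f i).S) :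
    a (C.ψ v ⟨i, g⟩ • C.e i g) =
      C.x (i, g.1) a * C.z (i, g.1) v + C.x (i, X.c * g.1) a * C.z (i, X.c * g.1) v := by
  have hg := g.2
  have hcg : X.c * g.1 ∉ (f i).S := ((f i).cm g.1).1 hg
  have h1 : C.z (i, g.1) v = C.ψ v ⟨i, g⟩ := by
    rw [C.z_mem i g.1 hg, C.cd_apply]
  have h2 : C.z (i, X.c * g.1) v = conj (C.ψ v ⟨i, g⟩) := by
    rw [C.z_conj, h1]
  have h3 : C.x (i, X.c * g.1) a = dlt (C.e i g) (-Complex.I) a := by
    rw [C.x_not i _ hcg]
    have h4 : (⟨X.c * (X.c * g.1), Ty.cmem hcg⟩ : (f i).S) = g := Subtype.ext (Z_ccg g.1)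
    rw [h4]
  rw [h1, h2, h3, C.x_mem i g.1 hg, Z_real, dlt_apply, dlt_apply]
  set l := C.ψ v ⟨i, g⟩
  have hl : l = l.re + l.im * Complex.I := (Complex.re_add_im l).symm
  have hl' : conj l = l.re - l.im * Complex.I := by
    apply Complex.ext
    · simp
    · simp
  rw [hl']
  conv_rhs => rw [hl]
  have hI : Complex.I * Complex.I = -1 := Complex.I_mul_I
  simp only [Complex.add_re, Complex.mul_re, Complex.ofReal_re, Complex.ofReal_im, Complex.I_re, Complex.I_im,
    Complex.add_im, Complex.mul_im, mul_zero, mul_one, sub_zero, add_zero, zero_add]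
  linear_combination ((l.im : ℂ) * a (Complex.I • C.e i g)) * hI

/-- The expansion of a real linear function. -/
theorem Crd.sum_x (C : Crd f T) (a : T.V →ₗ[ℝ] ℂ) : ∑ s : ι × X.G, C.x s a • C.z s = a := by
  apply LinearMap.ext
  intro v
  rw [LinearMap.sum_apply]
  conv_rhs => rw [C.v_sum v, map_sum]
  rw [Fintype.sum_prod_type]
  refine Finset.sum_congr rfl fun i _ => ?_
  rw [map_sum, ← Z_half (f i)]
  refine Finset.sum_congr rfl fun g _ => ?_
  rw [C.pair a v i g]
  rfl

open Classical in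
/-- The coordinate isomorphism. -/
def Crd.eqv (C : Crd f T) : (T.V →ₗ[ℝ] ℂ) ≃ₗ[ℂ] (ι × X.G → ℂ) where
  toFun a s := C.x s a
  map_add' a b := by
    funext s
    exact map_add _ _ _
  map_smul' r a := by
    funext s
    exact map_smul _ _ _
  invFun t := ∑ s, t s • C.z s
  left_inv a := C.sum_x a
  right_inv t := by
    funext s
    show C.x s (∑ r, t r • C.z r) = t s
    rw [map_sum, Finset.sum_eq_single s]
    · rw [map_smul, C.x_z', if_pos rfl, smul_eq_mul, mul_one]
    · intro r _ hr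
      rw [map_smul, C.x_z', if_neg hr, smul_zero]
    · intro h
      exact absurd (Finset.mem_univ s) h

/-- The basis `z_s`. -/
def Crd.zb (C : Crd f T) : Module.Basis (ι × X.G) ℂ (T.V →ₗ[ℝ] ℂ) := Module.Basis.ofEquivFun C.eqv

theorem Crd.zb_coord (C : Crd f T) (s : ι × X.G) : C.zb.coord s = C.x s := by
  apply LinearMap.ext
  intro a
  rw [Module.Basis.coord_apply, ← Module.Basis.equivFun_apply, Crd.zb, Module.Basis.equivFun_ofEquivFun]
  rfl

theorem Crd.zb_apply (C : Crd f T) (s : ι × X.G) : C.zb s = C.z s := by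
  classical
  apply C.zb.repr.injective
  ext r
  rw [Module.Basis.repr_self, ← Module.Basis.coord_apply, C.zb_coord, C.x_z', Finsupp.single_apply]

theorem tZ : S_Z := by
  intro X ι _ f T C
  exact ⟨fun i g v => C.z_conj i g v, fun i g v hg => C.z_I_mem i g v hg, fun i g v hg => C.z_I_not i g v hg,
    fun v hv => C.z_lat v hv, fun y hy => C.z_lat' y hy, C.zb, C.zb_apply, C.zb_coord⟩

end HC
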