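import Pool.Agent.Lib.HC.Iface

/-!
# HC, part Z: the coordinates `z_s` and the dual basis `x_s` (helper96)
-/

set_option autoImplicit false

open scoped ComplexConjugate

noncomputable section

namespace HC

variable {X : CMF} {ι : Type} {f : ι → Ty X} {T : AV}

theorem Z_cd_congr (C : Crd f T) (i : ι) {g g' : X.G} (h : g = g') (hg : g ∈ (f i).S)
    (hg' : g' ∈ (f i).S) : C.cd i ⟨g, hg⟩ = C.cd i ⟨g', hg'⟩ := by
  subst h
  rfl

theorem Z_ccg (g : X.G) : X.c * (X.c * g) = g := by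
  rw [← mul_assoc, X.cc, one_mul]

theorem Crd.z_mem (C : Crd f T) (i : ι) (g : X.G) (hg : g ∈ (f i).S) : C.z (i, g) = C.cd i ⟨g, hg⟩ := by
  unfold Crd.z
  exact dif_pos hg

theorem Crd.z_not (C : Crd f T) (i : ι) (g : X.G) (hg : g ∉ (f i).S) :
    C.z (i, g) = cjl (C.cd i ⟨X.c * g, Ty.cmem hg⟩) := by
  unfold Crd.z
  exact dif_neg hg

theorem Crd.z_conj (C : Crd f T) (i : ι) (g : X.G) (v : T.V) :
    C.z (i, X.c * g) v = conj (C.z (i, g) v) := by
  by_cases hg : g ∈ (f i).S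
  · have h1 : X.c * g ∉ (f i).S := ((f i).cm g).1 hg
    rw [C.z_mem i g hg, C.z_not i _ h1, cjl_apply, Z_cd_congr C i (Z_ccg g) _ hg]
  · have h1 : X.c * g ∈ (f i).S := Ty.cmem hg
    rw [C.z_not i g hg, C.z_mem i _ h1, cjl_apply, Complex.conj_conj]

theorem Crd.cd_I (C : Crd f T) (i : ι) (g : (f i).S) (v : T.V) :
    C.cd i g (Complex.I • v) = Complex.I * C.cd i g v := by
  rw [C.cd_apply, C.cd_apply, map_smul, Pi.smul_apply, smul_eq_mul]

theorem Crd.z_I_mem (C : Crd f T) (i : ι) (g : X.G) (v : T.V) (hg : g ∈ (f i).S) :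
    C.z (i, g) (Complex.I • v) = Complex.I * C.z (i, g) v := by
  rw [C.z_mem i g hg, C.cd_I]

theorem Crd.z_I_not (C : Crd f T) (i : ι) (g : X.G) (v : T.V) (hg : g ∉ (f i).S) :
    C.z (i, g) (Complex.I • v) = -Complex.I * C.z (i, g) v := by
  rw [C.z_not i g hg, cjl_apply, cjl_apply, C.cd_I, map_mul, Complex.conj_I]

theorem Crd.z_lat_aux (C : Crd f T) (v : T.V) (y : ι → X.K)
    (h : ∀ (i : ι) (g : (f i).S), C.ψ v ⟨i, g⟩ = X.τ (g.1 (y i))) (i : ι) (g : X.G) :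
    C.z (i, g) v = X.τ (g (y i)) := by
  by_cases hg : g ∈ (f i).S
  · rw [C.z_mem i g hg, C.cd_apply, h]
  · rw [C.z_not i g hg, cjl_apply, C.cd_apply, h, ← X.hc]
    show X.τ ((X.c * (X.c * g)) (y i)) = _
    rw [Z_ccg]

theorem Crd.z_lat (C : Crd f T) (v : T.V) (hv : v ∈ T.L) :
    ∃ y : ι → X.K, (∀ i, IsIntegral ℤ (y i)) ∧ ∀ i g, C.z (i, g) v = X.τ (g (y i)) := by
  obtain ⟨y, h1, h2⟩ := (C.lat v).1 hv
  exact ⟨y, h1, C.z_lat_aux v y h2⟩

theorem Crd.z_lat' (C : Crd f T) (y : ι → X.K) (hy : ∀ i, IsIntegral ℤ (y i)) :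
    ∃ v ∈ T.L, ∀ i g, C.z (i, g) v = X.τ (g (y i)) := by
  refine ⟨C.ψ.symm (fun s => X.τ (s.2.1 (y s.1))), (C.lat _).2 ⟨y, hy, ?_⟩, C.z_lat_aux _ y ?_⟩
  · intro i g
    rw [LinearEquiv.apply_symm_apply]
  · intro i g
    rw [LinearEquiv.apply_symm_apply]

theorem Crd.x_mem (C : Crd f T) (i : ι) (g : X.G) (hg : g ∈ (f i).S) :
    C.x (i, g) = dlt (C.e i ⟨g, hg⟩) Complex.I := by
  unfold Crd.x
  exact dif_pos hg

theorem Crd.x_not (C : Crd f T) (i : ι) (g : X.G) (hg : g ∉ (f i).S) :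
    C.x (i, g) = dlt (C.e i ⟨X.c * g, Ty.cmem hg⟩) (-Complex.I) := by
  unfold Crd.x
  exact dif_neg hg

theorem dlt_apply {V : Type} [AddCommGroup V] [Module ℂ V] (v : V) (t : ℂ) (a : V →ₗ[ℝ] ℂ) :
    dlt v t a = (a v - t * a (Complex.I • v)) / 2 := rfl

open Classical in
theorem Crd.cd_e_same (C : Crd f T) (i : ι) (g : (f i).S) : C.cd i g (C.e i g) = 1 := by
  rw [C.cd_apply, Crd.e, LinearEquiv.apply_symm_apply, Pi.single_eq_same]

open Classical in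
theorem Crd.cd_e_ne (C : Crd f T) (i j : ι) (g : (f i).S) (h : (f j).S)
    (hne : ¬ (j = i ∧ h.1 = g.1)) : C.cd j h (C.e i g) = 0 := by
  rw [C.cd_apply, Crd.e, LinearEquiv.apply_symm_apply, Pi.single_eq_of_ne]
  intro he
  apply hne
  have h1 : j = i := congrArg (fun s : (i : ι) × (f i).S => s.1) he
  have h2 : h.1 = g.1 := congrArg (fun s : (i : ι) × (f i).S => (s.2.1 : X.G)) he
  exact ⟨h1, h2⟩

open Classical in
theorem Crd.x_z (C : Crd f T) (i j : ι) (g h : X.G) :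
    C.x (i, g) (C.z (j, h)) = if j = i ∧ h = g then 1 else 0 := by
  have hI : Complex.I * Complex.I = -1 := Complex.I_mul_I
  by_cases hg : g ∈ (f i).S
  · rw [C.x_mem i g hg, dlt_apply]
    by_cases hh : h ∈ (f j).S
    · rw [C.z_I_mem j h _ hh, C.z_mem j h hh]
      by_cases he : j = i ∧ h = g
      · obtain ⟨rfl, rfl⟩ := he
        rw [if_pos ⟨rfl, rfl⟩, C.cd_e_same]
        linear_combination (-1 / 2) * hI
      · rw [if_neg he, C.cd_e_ne i j ⟨g, hg⟩ ⟨h, hh⟩ he]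
        ring
    · have he : ¬ (j = i ∧ h = g) := by
        rintro ⟨rfl, rfl⟩
        exact hh hg
      rw [if_neg he, C.z_I_not j h _ hh]
      linear_combination (C.z (j, h) (C.e i ⟨g, hg⟩) / 2) * hI
  · rw [C.x_not i g hg, dlt_apply]
    by_cases hh : h ∈ (f j).S
    · have he : ¬ (j = i ∧ h = g) := by
        rintro ⟨rfl, rfl⟩
        exact hg hh
      rw [if_neg he, C.z_I_mem j h _ hh]
      linear_combination (C.z (j, h) (C.e i ⟨X.c * g, Ty.cmem hg⟩) / 2) * hI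
    · rw [C.z_I_not j h _ hh, C.z_not j h hh, cjl_apply]
      by_cases he : j = i ∧ h = g
      · obtain ⟨rfl, rfl⟩ := he
        rw [if_pos ⟨rfl, rfl⟩, C.cd_e_same, map_one]
        linear_combination (-1 / 2) * hI
      · rw [if_neg he, C.cd_e_ne i j ⟨X.c * g, _⟩ ⟨X.c * h, _⟩, map_zero]
        · ring
        · rintro ⟨h1, h2⟩
          exact he ⟨h1, mul_left_cancel h2⟩

open Classical in
theorem Crd.x_z' (C : Crd f T) (s t : ι × X.G) : C.x s (C.z t) = if t = s then 1 else 0 := by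
  obtain ⟨i, g⟩ := s
  obtain ⟨j, h⟩ := t
  rw [C.x_z]
  simp only [Prod.mk.injEq]

end HC
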