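import Pool.Agent.Lib.HC.Z.Bas

/-!
# HC, part Z: homomorphisms between products (helper96)
-/

set_option autoImplicit false

open scoped ComplexConjugate

noncomputable section

namespace HC

variable {X : CMF} {ι ι' κ : Type}

theorem Crd.z_smul_mem {f : ι → Ty X} {T : AV} (C : Crd f T) (i : ι) (g : X.G) (hg : g ∈ (f i).S)
    (r : ℂ) (v : T.V) : C.z (i, g) (r • v) = r * C.z (i, g) v := by
  rw [C.z_mem i g hg, C.cd_apply, C.cd_apply, map_smul, Pi.smul_apply, smul_eq_mul]

open Classical in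
/-- The values of the homomorphism. -/
def Hom_val [Fintype κ] {f : ι → Ty X} (f' : ι' → Ty X) {T : AV} (C : Crd f T) (i : κ → ι) (i' : κ → ι')
    (h : κ → X.G) (n : κ → X.K) (v : T.V) : PV f' :=
  fun s => ∑ a, if i' a = s.1 then X.τ (s.2.1 (n a)) * C.z (i a, s.2.1 * h a) v else 0

/-- The homomorphism. -/
def Hom_phi [Fintype κ] {f : ι → Ty X} {f' : ι' → Ty X} {T T' : AV} (C : Crd f T) (C' : Crd f' T')
    (i : κ → ι) (i' : κ → ι') (h : κ → X.G) (n : κ → X.K)
    (hm : ∀ a g, g ∈ (f' (i' a)).S ↔ g * h a ∈ (f (i a)).S) : T.V →ₗ[ℂ] T'.V :=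
  C'.ψ.symm.toLinearMap ∘ₗ
    { toFun := Hom_val f' C i i' h n
      map_add' := by
        intro u v
        funext s
        unfold Hom_val
        rw [Pi.add_apply, ← Finset.sum_add_distrib]
        refine Finset.sum_congr rfl fun a _ => ?_
        by_cases ha : i' a = s.1
        · rw [if_pos ha, if_pos ha, if_pos ha, map_add, mul_add]
        · rw [if_neg ha, if_neg ha, if_neg ha, add_zero]
      map_smul' := by
        intro r v
        funext s
        unfold Hom_val
        rw [Pi.smul_apply, RingHom.id_apply, smul_eq_mul, Finset.mul_sum]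
        refine Finset.sum_congr rfl fun a _ => ?_
        by_cases ha : i' a = s.1
        · have h1 : s.2.1 * h a ∈ (f (i a)).S := by
            rw [← hm, ha]
            exact s.2.2
          rw [if_pos ha, if_pos ha, C.z_smul_mem _ _ h1]
          ring
        · rw [if_neg ha, if_neg ha, mul_zero] }

theorem Hom_phi_apply [Fintype κ] {f : ι → Ty X} {f' : ι' → Ty X} {T T' : AV} (C : Crd f T)
    (C' : Crd f' T') (i : κ → ι) (i' : κ → ι') (h : κ → X.G) (n : κ → X.K)
    (hm : ∀ a g, g ∈ (f' (i' a)).S ↔ g * h a ∈ (f (i a)).S) (v : T.V) :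
    C'.ψ (Hom_phi C C' i i' h n hm v) = Hom_val f' C i i' h n v := by
  show C'.ψ (C'.ψ.symm (Hom_val f' C i i' h n v)) = _
  rw [LinearEquiv.apply_symm_apply]

open Classical in
theorem Hom_pull [Fintype κ] {f : ι → Ty X} {f' : ι' → Ty X} {T T' : AV} (C : Crd f T)
    (C' : Crd f' T') (i : κ → ι) (i' : κ → ι') (h : κ → X.G) (n : κ → X.K)
    (hm : ∀ a g, g ∈ (f' (i' a)).S ↔ g * h a ∈ (f (i a)).S) (j : ι') (g : X.G) :
    pull (Hom_phi C C' i i' h n hm) (C'.z (j, g)) =
      ∑ a, if i' a = j then X.τ (g (n a)) • C.z (i a, g * h a) else 0 := by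
  apply LinearMap.ext
  intro v
  show C'.z (j, g) (Hom_phi C C' i i' h n hm v) = _
  rw [LinearMap.sum_apply]
  by_cases hg : g ∈ (f' j).S
  · rw [C'.z_mem j g hg, C'.cd_apply, Hom_phi_apply]
    unfold Hom_val
    refine Finset.sum_congr rfl fun a _ => ?_
    by_cases ha : i' a = j
    · rw [if_pos ha, if_pos ha]
      rfl
    · rw [if_neg ha, if_neg ha]
      rfl
  · rw [C'.z_not j g hg, cjl_apply, C'.cd_apply, Hom_phi_apply]
    unfold Hom_val
    rw [map_sum]
    refine Finset.sum_congr rfl fun a _ => ?_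
    by_cases ha : i' a = j
    · rw [if_pos ha, if_pos ha, map_mul, ← X.hc, mul_assoc, C.z_conj, Complex.conj_conj]
      show X.τ ((X.c * (X.c * g)) (n a)) * _ = _
      rw [Z_ccg]
      rfl
    · rw [if_neg ha, if_neg ha, map_zero]
      rfl

theorem Hom_lat [Fintype κ] {f : ι → Ty X} {f' : ι' → Ty X} {T T' : AV} (C : Crd f T)
    (C' : Crd f' T') (i : κ → ι) (i' : κ → ι') (h : κ → X.G) (n : κ → X.K) (hn : ∀ a, IsIntegral ℤ (n a))
    (hm : ∀ a g, g ∈ (f' (i' a)).S ↔ g * h a ∈ (f (i a)).S) (v : T.V) (hv : v ∈ T.L) :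
    Hom_phi C C' i i' h n hm v ∈ T'.L := by
  classical
  obtain ⟨y, hy, hz⟩ := C.z_lat v hv
  refine (C'.lat _).2 ⟨fun j => ∑ a, if i' a = j then n a * h a (y (i a)) else 0, ?_, ?_⟩
  · intro j
    refine IsIntegral.sum _ fun a _ => ?_
    by_cases ha : i' a = j
    · rw [if_pos ha]
      exact (hn a).mul ((hy (i a)).map (h a))
    · rw [if_neg ha]
      exact isIntegral_zero
  · intro j g
    rw [Hom_phi_apply]
    unfold Hom_val
    rw [map_sum, map_sum]
    refine Finset.sum_congr rfl fun a _ => ?_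
    by_cases ha : i' a = j
    · rw [if_pos ha, if_pos ha, map_mul, map_mul, hz]
      rfl
    · rw [if_neg ha, if_neg ha, map_zero, map_zero]

theorem tHom : S_Hom := by
  classical
  intro X ι ι' κ _ _ _ f f' T T' C C' i i' h n hn hm
  refine ⟨Hom_phi C C' i i' h n hm, Hom_lat C C' i i' h n hn hm, ?_, ?_⟩
  · intro j g
    exact Hom_pull C C' i i' h n hm j g
  · intro j g
    apply C'.zb.ext
    rintro ⟨j', g'⟩
    rw [C'.zb_apply]
    show C.x (j, g) (pull (Hom_phi C C' i i' h n hm) (C'.z (j', g'))) = _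
    rw [Hom_pull, map_sum, LinearMap.sum_apply]
    refine Finset.sum_congr rfl fun a _ => ?_
    by_cases ha : i' a = j'
    · rw [if_pos ha, map_smul, C.x_z, smul_eq_mul]
      by_cases hb : i a = j
      · rw [if_pos hb, LinearMap.smul_apply, C'.x_z, smul_eq_mul]
        by_cases hc : g' * h a = g
        · have h1 : g' = g * (h a)⁻¹ := eq_mul_inv_of_mul_eq hc
          rw [if_pos ⟨hb, hc⟩, if_pos ⟨ha.symm, h1⟩, h1]
          rfl
        · rw [if_neg (fun h2 => hc h2.2), if_neg, mul_zero, mul_zero]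
          rintro ⟨-, h2⟩
          exact hc (mul_eq_of_eq_mul_inv h2)
      · rw [if_neg hb, if_neg (fun h2 => hb h2.1), mul_zero]
        rfl
    · rw [if_neg ha, map_zero]
      by_cases hb : i a = j
      · rw [if_pos hb, LinearMap.smul_apply, C'.x_z, if_neg (fun h2 => ha h2.1.symm), smul_zero]
      · rw [if_neg hb]
        rfl

end HC
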